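import Pool.Agent.Helper76.Dim.Defs

set_option autoImplicit false

namespace Pool.Agent.Helper37PR

open Pool.Agent.Helper76.Dim

/-- `E` relative to the oracle `A`: the languages decided by deterministic oracle machines which
make, on inputs of length `n`, at most `2 ^ (c (n + 1))` steps, for a constant `c` (so they may ask
queries of exponential length). The machine accepts by entering state `4` and rejects by entering
state `5`. -/
def EE (A : Set (List Bool)) : Set (Set (List Bool)) :=
  {L | ∃ (M : DTM) (c : ℕ), ∀ x, ∃ m ≤ 2 ^ (c * (x.length + 1)),
    (x ∈ L → ((M.step A)^[m] (Cfg.init M.k M.g M.n x)).state = 4) ∧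
    (x ∉ L → ((M.step A)^[m] (Cfg.init M.k M.g M.n x)).state = 5)}

end Pool.Agent.Helper37PR
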