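import Pool.Agent.Helper37PR.Mart

set_option autoImplicit false

/-!
# Witnesses are hard to find
-/

namespace Pool.Agent.Helper37PR

open Pool.Agent.Helper76.Dim
open Pool.Agent.Helper79K.DM (Om coin mu mu_cyl Dep mach mach_surj tb Fam apx Bit Rb wit Hid Agree
  AgreeF CC CC_mono)

open MeasureTheory Filter

/-- all queries of the tree have length at most `l` -/
def Qlen {β : Type} : QT β → ℕ → Prop
  | .ret _, _ => True
  | .ask z f, l => z.length ≤ l ∧ ∀ b, Qlen (f b) l

theorem Qlen.mono {β : Type} {t : QT β} {l l' : ℕ} (h : Qlen t l) (hl : l ≤ l') : Qlen t l' := by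
  induction t with
  | ret b => trivial
  | ask z f ih => exact ⟨h.1.trans hl, fun b => ih b (h.2 b)⟩

theorem Qlen.map {β γ : Type} {t : QT β} {l : ℕ} (h : Qlen t l) (φ : β → γ) :
    Qlen (t.map φ) l := by
  induction t with
  | ret b => trivial
  | ask z f ih => exact ⟨h.1, fun b => ih b (h.2 b)⟩

theorem qt_qlen (M : DTM) (T m : ℕ) (c : Cfg M.k M.g M.n) (h : Short m c) :
    Qlen (M.qt T c) (m + T) := by
  induction T generalizing m c with
  | zero => trivial
  | succ T ih =>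
    rw [DTM.qt]
    split_ifs with h1 h2
    · trivial
    · refine ⟨h.word_le.trans (Nat.le_add_right _ _), fun b => (ih m _ ?_).mono (by omega)⟩
      exact ⟨h.1, h.2⟩
    · exact (ih (m + 1) _ (h.act _)).mono (by omega)

theorem qt_init_qlen (M : DTM) (T : ℕ) (x : List Bool) :
    Qlen (M.qt T (Cfg.init M.k M.g M.n x)) T := by
  have h := qt_qlen M T 0 _ (Short.init x)
  rwa [Nat.zero_add] at h

theorem run_ag {β : Type} {A B : Set (List Bool)} {l : ℕ}
    (h : ∀ z : List Bool, z.length ≤ l → (z ∈ A ↔ z ∈ B)) (t : QT β) (ht : Qlen t l) (H : Hist) :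
    t.run (orA A) H = t.run (orA B) H := by
  induction t generalizing H with
  | ret b => rfl
  | ask z f ih =>
    have h1 : orA A H z = orA B H z := decide_eq_decide.2 (h z ht.1)
    rw [QT.run, QT.run, h1]
    exact ih _ (ht.2 _) _

theorem run_qlen {β : Type} (ans : Ans) {l : ℕ} (t : QT β) (ht : Qlen t l) (H : Hist)
    (hH : ∀ q ∈ H, q.1.length ≤ l) : ∀ q ∈ (t.run ans H).2, q.1.length ≤ l := by
  induction t generalizing H with
  | ret b => exact hH
  | ask z f ih =>
    refine ih _ (ht.2 _) _ ?_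
    intro q hq
    rw [List.mem_append, List.mem_singleton] at hq
    rcases hq with hq | hq
    · exact hH q hq
    · rw [hq]
      exact ht.1

/-- no witness is found -/
def Ok {β : Type} (m : ℕ) (t : QT β) (ω : Om) : Prop :=
  ∀ q ∈ (t.run (orA (Id m ω)) []).2, (q.1 ∈ Id m ω ↔ q.1 ∈ Or ω)

theorem Ok.run {β : Type} {m : ℕ} {t : QT β} {ω : Om} (h : Ok m t ω) :
    t.run (orA (Or ω)) [] = t.run (orA (Id m ω)) [] := by
  refine QT.run_congr t [] ?_
  have h1 : Cons (orA (Id m ω)) (t.run (orA (Id m ω)) []).2 :=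
    QT.run_cons t [] fun h1 z b h2 e => by simp at e
  intro h2 z b h3 e
  rw [← h1 h2 z b h3 e]
  have h4 := h (z, b) (by rw [e]; simp)
  exact decide_eq_decide.2 h4.symm

theorem Id_agree {l m : ℕ} {ω ω' : Om} (h : Agree l (Or ω) (Or ω')) :
    Agree l (Id m ω) (Id m ω') := fun z hz => and_congr_left fun _ => h z hz

theorem mu_wit {m b : ℕ} (hb : ∀ x, m ≤ idx x → b ≤ x.length) (z : List Bool) :
    mu.real {ω' | ∃ x y, z = encH x y true ∧ m ≤ idx x ∧ y = wit ω' x} ≤ (1 / 2) ^ (b ^ 2) := by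
  rcases Set.eq_empty_or_nonempty
    {ω' | ∃ x y, z = encH x y true ∧ m ≤ idx x ∧ y = wit ω' x} with he | ⟨ω₀, x, y, h1, h2, h3⟩
  · rw [he, measureReal_empty]
    positivity
  · have h4 := mu_cyl ((Finset.range (x.length ^ 2)).image fun i => (idx x, i + 1)) ω₀
    rw [Finset.card_image_of_injective _ (fun a b h => by simpa using h), Finset.card_range] at h4
    refine le_trans (measureReal_mono ?_) (h4.le.trans
      (pow_le_pow_of_le_one (by norm_num) (by norm_num) (Nat.pow_le_pow_left (hb x h2) 2)))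
    rintro ω' ⟨x', y', h5, h6, h7⟩ c hc
    simp only [Finset.mem_image, Finset.mem_range] at hc
    obtain ⟨i, hi, rfl⟩ := hc
    rw [h1] at h5
    obtain ⟨h8, h9, _⟩ := encH_inj h5
    subst h8
    have h10 : wit ω' x = wit ω₀ x := by rw [← h7, ← h9, h3]
    have h11 := congrArg (fun l => l[i]?) h10
    simpa [wit, hi] using h11

theorem measurable_ok {β : Type} {m l k : ℕ} {τ : Om → QT β}
    (hτ : ∀ ω ω', (∀ c ∈ CC k, ω c = ω' c) → τ ω = τ ω') (hQ : ∀ ω, Qlen (τ ω) l) :
    MeasurableSet {ω | ¬ Ok m (τ ω) ω} := by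
  refine Dep.measurable (C := CC (max k (l + 1))) fun ω ω' h => ?_
  have h1 : τ ω = τ ω' := hτ ω ω' fun c hc => h c (CC_mono (le_max_left _ _) hc)
  have h2 : Agree (l + 1) (Or ω) (Or ω') :=
    Or_dep (l + 1) fun c hc => h c (CC_mono (le_max_right _ _) hc)
  have h3 : Agree (l + 1) (Id m ω) (Id m ω') := Id_agree h2
  have h4 : (τ ω).run (orA (Id m ω)) [] = (τ ω).run (orA (Id m ω')) [] :=
    run_ag (fun z hz => h3 z (by omega)) _ (hQ ω) _
  simp only [Set.mem_ofPred_eq, Ok]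
  rw [← h1, ← h4]
  refine not_congr (forall₂_congr fun q hq => ?_)
  have h5 := run_qlen (orA (Id m ω)) (τ ω) (hQ ω) [] (by simp) q hq
  rw [h2 q.1 (by omega), h3 q.1 (by omega)]

/-- The probability that a witness is found. -/
theorem mu_ok {β : Type} {m l k b T : ℕ} {τ : Om → QT β}
    (hτ : ∀ ω ω', (∀ c ∈ CC k, ω c = ω' c) → τ ω = τ ω') (hQ : ∀ ω, Qlen (τ ω) l)
    (hB : ∀ ω, (τ ω).Bdd T) (hm : ∀ ω ω', τ (mix m ω ω') = τ ω)
    (hacc : ∀ j, 2 ^ ar j ≤ l → mj j ≤ m) (hb : ∀ x, m ≤ idx x → b ≤ x.length) :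
    mu.real {ω | ¬ Ok m (τ ω) ω} ≤ T * (1 / 2) ^ (b ^ 2) := by
  classical
  refine mu_le_of_mix m (measurable_ok hτ hQ) (by positivity) fun ω => ?_
  set H := ((τ ω).run (orA (Id m ω)) []).2 with hH
  have h1 : {ω' | mix m ω ω' ∈ {ω | ¬ Ok m (τ ω) ω}} ⊆
      ⋃ q ∈ H.toFinset, {ω' | ∃ x y, q.1 = encH x y true ∧ m ≤ idx x ∧ y = wit ω' x} := by
    intro ω' h
    have h2 : ¬ Ok m (τ (mix m ω ω')) (mix m ω ω') := h
    rw [hm, Ok] at h2
    have h3 : (τ ω).run (orA (Id m (mix m ω ω'))) [] = (τ ω).run (orA (Id m ω)) [] :=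
      run_ag (fun z hz => Id_ag hacc (Ag.mix m ω ω') hz) _ (hQ ω) _
    rw [h3] at h2
    simp only [not_forall, exists_prop] at h2
    obtain ⟨q, hq, hne⟩ := h2
    obtain ⟨x, y, h4, h5, h6⟩ := Id_ne hne
    simp only [Set.mem_iUnion, exists_prop, List.mem_toFinset]
    refine ⟨q, hq, x, y, h4, h5, ?_⟩
    rw [h6]
    exact List.map_congr_left fun i _ => mix_ge h5
  refine (measureReal_mono h1 (measure_ne_top _ _)).trans
    ((measureReal_biUnion_finset_le _ _).trans ?_)
  refine (Finset.sum_le_sum fun q _ => mu_wit hb q.1).trans ?_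
  rw [Finset.sum_const, nsmul_eq_mul]
  refine mul_le_mul_of_nonneg_right ?_ (by positivity)
  have h2 : H.length ≤ T := by
    have := QT.run_length (orA (Id m ω)) (τ ω) [] (hB ω)
    simpa using this
  exact_mod_cast (List.toFinset_card_le H).trans h2

/-- Borel and Cantelli -/
theorem borel {E : ℕ → Set Om} {b : ℕ → ℝ} (hb : Summable b)
    (h : ∀ᶠ n in atTop, mu.real (E n) ≤ b n) : mu {ω | ∃ᶠ n in atTop, ω ∈ E n} = 0 := by
  have h1 : Summable fun n => mu.real (E n) := by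
    refine hb.of_norm_bounded_eventually_nat ?_
    filter_upwards [h] with n hn
    rwa [Real.norm_of_nonneg measureReal_nonneg]
  have h2 : ∑' n, mu (E n) ≠ ⊤ := by
    have h3 := h1.tsum_ofReal_ne_top
    have h4 : ∀ n, ENNReal.ofReal (mu.real (E n)) = mu (E n) :=
      fun n => ofReal_measureReal (measure_ne_top _ _)
    simpa only [h4] using h3
  have h3 := measure_limsup_atTop_eq_zero h2
  rw [Filter.limsup_eq_iInf_iSup_of_nat] at h3
  convert h3 using 2
  ext ω
  simp only [Set.mem_ofPred_eq, frequently_atTop]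
  simp [Set.mem_iInter, Set.mem_iUnion]

end Pool.Agent.Helper37PR
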