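import Pool.Agent.Helper37PR.Low

set_option autoImplicit false

/-!
# The hidden language is random: the null sets
-/

namespace Pool.Agent.Helper37PR

open Pool.Agent.Helper76.Dim
open Pool.Agent.Helper79K.DM (Om coin mu mu_cyl Dep mach mach_surj tb Fam apx Bit Rb wit Hid Agree
  AgreeF CC CC_mono XX mu_initSeg FM FM_nonneg dec dec_ratCode dec_nonneg eval_mono poly_two_pow
  poly_le half_pow)

open MeasureTheory Filter

variable {F : List Bool → QT ℝ} {l : ℕ → ℕ}

/-- The values are unbounded with probability zero. -/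
theorem Tame.null_large (hF : Tame F l) {n : ℕ}
    (hacc : ∀ i, n ≤ i → ∀ j, 2 ^ ar j ≤ l i → mj j ≤ i) (K : ℕ) :
    mu {ω | val F (Id n ω) (initSeg (XX ω) n) ≤ K ∧ (∀ i, n ≤ i → cond F i ω) ∧
      ∀ C : ℕ, ∃ i, n ≤ i ∧ (C : ℝ) ≤ val F (Id i ω) (initSeg (XX ω) i)} = 0 := by
  set S := {ω | val F (Id n ω) (initSeg (XX ω) n) ≤ K ∧ (∀ i, n ≤ i → cond F i ω) ∧
      ∀ C : ℕ, ∃ i, n ≤ i ∧ (C : ℝ) ≤ val F (Id i ω) (initSeg (XX ω) i)} with hS
  have h1 : ∀ C : ℕ, 1 ≤ C → mu.real S ≤ (K + 2) / C := by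
    intro C hC
    have hC' : (0 : ℝ) < C := by exact_mod_cast hC
    let W : ℕ → Set Om := fun N => {ω | val F (Id n ω) (initSeg (XX ω) n) ≤ K ∧
      (∀ i, n ≤ i → cond F i ω) ∧
      ∃ i, n ≤ i ∧ i ≤ N ∧ (C : ℝ) ≤ val F (Id i ω) (initSeg (XX ω) i)}
    have hW : Monotone W := by
      rintro N N' hN ω ⟨h1, h2, i, h3, h4, h5⟩
      exact ⟨h1, h2, i, h3, h4.trans hN, h5⟩
    have h2 : S ⊆ ⋃ N, W N := by
      rintro ω ⟨h1, h2, h3⟩
      obtain ⟨i, h4, h5⟩ := h3 C
      exact Set.mem_iUnion.2 ⟨i, h1, h2, i, h4, le_rfl, h5⟩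
    have h3 : ∀ N, mu (W N) ≤ ENNReal.ofReal ((K + 2) / C) := by
      intro N
      rcases le_or_gt n N with hN | hN
      · have h4 : W N ⊆ VE F C K n N := by
          rintro ω ⟨h1, h2, h3⟩
          exact ⟨h1, fun i hi _ => h2 i hi, h3⟩
        refine (measure_mono h4).trans ?_
        rw [← ofReal_measureReal (measure_ne_top _ _)]
        exact ENNReal.ofReal_le_ofReal (hF.mu_VE hC' (Nat.cast_nonneg K) hN hacc)
      · have h4 : W N = ∅ := by
          ext ω
          simp only [W, Set.mem_ofPred_eq, Set.mem_empty_iff_false, iff_false]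
          rintro ⟨_, _, i, h5, h6, _⟩
          omega
        rw [h4, measure_empty]
        exact zero_le
    have h4 : mu S ≤ ENNReal.ofReal ((K + 2) / C) := by
      refine (measure_mono h2).trans ?_
      rw [hW.measure_iUnion]
      exact iSup_le h3
    exact ENNReal.toReal_le_of_le_ofReal (by positivity) h4
  have h2 : mu.real S = 0 := by
    by_contra hne
    have h3 : 0 < mu.real S := lt_of_le_of_ne measureReal_nonneg (Ne.symm hne)
    obtain ⟨C, hC⟩ := exists_nat_gt ((K + 2) / mu.real S)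
    have h4 : (0 : ℝ) < C := lt_of_le_of_lt (by positivity) hC
    have h5 := h1 C (by exact_mod_cast h4)
    rw [le_div_iff₀ h4] at h5
    rw [div_lt_iff₀ h3] at hC
    linarith
  exact (measureReal_eq_zero_iff (measure_ne_top _ _)).1 h2

/-! ### Eventual inequalities -/

theorem le_log {b n : ℕ} (h : 2 ^ b ≤ n) : b ≤ Nat.log 2 n :=
  (Nat.le_log_iff_pow_le (by norm_num) (by
    have : 1 ≤ 2 ^ b := Nat.one_le_two_pow
    omega)).2 h

theorem acc_lo {c s j : ℕ} (hc : 1 ≤ c) (hs : c ^ 2 ≤ s) (h : ar j ≤ c * s) : lo j ≤ s := by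
  rw [ar] at h
  rw [lo]
  rcases le_or_gt c (vv j) with h1 | h1
  · have h2 : c * vv j ^ 2 ≤ c * s := by
      refine le_trans ?_ h
      calc c * vv j ^ 2 ≤ vv j * vv j ^ 2 := Nat.mul_le_mul_right _ h1
        _ = vv j ^ 3 := by ring
    exact Nat.le_of_mul_le_mul_left h2 hc
  · exact (Nat.pow_le_pow_left h1.le 2).trans hs

theorem acc_eventually (q : Polynomial ℕ) :
    ∃ n0, ∀ n, n0 ≤ n → ∀ j, 2 ^ ar j ≤ q.eval n → mj j ≤ n := by
  obtain ⟨c, hc, hc'⟩ := poly_two_pow q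
  refine ⟨2 ^ (c ^ 2), fun n hn j hj => ?_⟩
  have h1 : c ^ 2 ≤ Nat.log 2 n := le_log hn
  have h0 : 1 ≤ c ^ 2 := Nat.one_le_pow _ _ hc
  have h2 : 1 ≤ 2 ^ (c ^ 2) := Nat.one_le_two_pow
  have h3 : 2 ^ Nat.log 2 n ≤ n := Nat.pow_log_le_self 2 (by omega)
  have h4 : n < 2 ^ (Nat.log 2 n + 1) := Nat.lt_pow_succ_log_self (by norm_num) n
  have h5 := hj.trans (hc' (Nat.log 2 n) n (by omega) h4)
  have h6 : ar j ≤ c * Nat.log 2 n := (Nat.pow_le_pow_iff_right (by norm_num)).1 h5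
  have h7 := acc_lo hc h1 h6
  have h8 : 2 ^ lo j ≤ 2 ^ Nat.log 2 n := Nat.pow_le_pow_right (by norm_num) h7
  rw [mj]
  omega

theorem le_length_of_idx {b m : ℕ} (h : 2 ^ b ≤ m + 1) (x : List Bool) (hx : m ≤ idx x) :
    b ≤ x.length := by
  have h1 := idx_lt x
  have h2 : 2 ^ b < 2 ^ (x.length + 1) := by omega
  have h3 := (Nat.pow_lt_pow_iff_right (by norm_num : 1 < 2)).1 h2
  omega

/-- Witnesses are found only finitely often. -/
theorem Tame.null_hit {q : Polynomial ℕ} (hF : Tame F fun n => q.eval n) {s : List Bool}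
    (hs : s.length ≤ 1) :
    mu {ω | ∃ᶠ n in atTop, ω ∈ {ω | ¬ Ok n (F (initSeg (XX ω) n ++ s)) ω}} = 0 := by
  obtain ⟨n0, hn0⟩ := acc_eventually q
  obtain ⟨c, hc, hc'⟩ := poly_two_pow q
  have hsum : Summable fun n : ℕ => 1 / ((n : ℝ) + 1) ^ 2 := by
    have h1 : Summable fun n : ℕ => 1 / ((n : ℝ)) ^ 2 :=
      Real.summable_one_div_nat_pow.2 (by norm_num)
    have h2 := (summable_nat_add_iff 1).2 h1
    refine h2.congr fun n => ?_
    push_cast
    rfl
  refine borel hsum ?_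
  refine eventually_atTop.2 ⟨max n0 (2 ^ (c + 4)), fun n hn => ?_⟩
  have hn1 : n0 ≤ n := (le_max_left _ _).trans hn
  have hn2 : 2 ^ (c + 4) ≤ n := (le_max_right _ _).trans hn
  set b := Nat.log 2 n with hb
  have h1 : c + 4 ≤ b := le_log hn2
  have h2 : 1 ≤ 2 ^ (c + 4) := Nat.one_le_two_pow
  have h3 : 2 ^ b ≤ n := Nat.pow_log_le_self 2 (by omega)
  have h4 : n < 2 ^ (b + 1) := Nat.lt_pow_succ_log_self (by norm_num) n
  have h5 := hc' b n (by omega) h4
  have hlen : ∀ ω : Om, (initSeg (XX ω) n ++ s).length ≤ n + 1 := fun ω => by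
    rw [List.length_append, length_initSeg]
    omega
  have h6 := mu_ok (m := n) (l := q.eval n) (k := n) (b := b) (T := q.eval n)
    (τ := fun ω => F (initSeg (XX ω) n ++ s)) (fun ω ω' h => by rw [XX_dep le_rfl h])
    (fun ω => hF.qlen n _ (hlen ω)) (fun ω => hF.bdd n _ (hlen ω))
    (fun ω ω' => by
      have : initSeg (XX (mix n ω ω')) n = initSeg (XX ω) n :=
        initSeg_congr fun i hi => mix_lt (c := (i, 0)) hi
      simp only [this]) (hn0 n hn1)
    (fun x hx => le_length_of_idx (by omega) x hx)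
  refine h6.trans ?_
  rw [le_div_iff₀ (by positivity)]
  have h7 : ((q.eval n : ℕ) : ℝ) ≤ 2 ^ (c * b) := by exact_mod_cast h5
  have h8 : (n : ℝ) + 1 ≤ 2 ^ (b + 1) := by exact_mod_cast h4
  have h9 : (2 : ℝ) ^ (c * b) * (2 ^ (b + 1)) ^ 2 ≤ 2 ^ (b ^ 2) := by
    rw [← pow_mul, ← pow_add]
    refine pow_le_pow_right₀ (by norm_num) ?_
    nlinarith
  have h10 : ((1 : ℝ) / 2) ^ (b ^ 2) * 2 ^ (b ^ 2) = 1 := by
    rw [← mul_pow]
    norm_num
  calc ((q.eval n : ℕ) : ℝ) * (1 / 2) ^ (b ^ 2) * ((n : ℝ) + 1) ^ 2 ≤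
      2 ^ (c * b) * (1 / 2) ^ (b ^ 2) * (2 ^ (b + 1)) ^ 2 := by gcongr
    _ = (1 / 2) ^ (b ^ 2) * (2 ^ (c * b) * (2 ^ (b + 1)) ^ 2) := by ring
    _ ≤ (1 / 2) ^ (b ^ 2) * 2 ^ (b ^ 2) := by gcongr
    _ = 1 := h10

theorem tame_FM (M : DTM) (p : Polynomial ℕ) :
    Tame (FM M p) fun n => (p.comp (3 * Polynomial.X + 5)).eval n := by
  have he : ∀ n (v : List Bool), v.length ≤ n + 1 →
      p.eval (3 * v.length + 2) ≤ (p.comp (3 * Polynomial.X + 5)).eval n := by
    intro n v hv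
    rw [Polynomial.eval_comp]
    refine eval_mono p ?_
    simp only [Polynomial.eval_add, Polynomial.eval_mul, Polynomial.eval_ofNat,
      Polynomial.eval_X]
    omega
  refine ⟨FM_nonneg M p, fun a b h => eval_mono _ h, fun n v hv => ?_, fun n v hv => ?_⟩
  · exact ((qt_init_qlen M _ _).mono (he n v hv)).map _
  · exact QT.Bdd.map ((M.qt_bdd _ _).mono (he n v hv)) _

/-- The oracles for which a machine computes a martingale which succeeds on the hidden language
form a null set. -/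
theorem null_succ (M : DTM) (p : Polynomial ℕ) :
    mu {ω | ∃ (d : List Bool → ℝ) (f : ℕ → List Bool → ℚ), IsGale 1 d ∧
      (∀ r w, |(f r w : ℝ) - d w| ≤ 2 ^ (-(r : ℝ))) ∧
      (∀ r w, M.Outputs (Or ω) (inp r w) (p.eval (r + w.length)) (ratCode (f r w))) ∧
      Succeeds d (XX ω)} = 0 := by
  set F := FM M p with hFdef
  set q := p.comp (3 * Polynomial.X + 5) with hq
  have hF : Tame F fun n => q.eval n := tame_FM M p
  obtain ⟨n1, hn1⟩ := acc_eventually q
  have hnull : mu (({ω | ∃ᶠ n in atTop, ω ∈ {ω | ¬ Ok n (F (initSeg (XX ω) n ++ [])) ω}} ∪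
      ({ω | ∃ᶠ n in atTop, ω ∈ {ω | ¬ Ok n (F (initSeg (XX ω) n ++ [false])) ω}} ∪
      {ω | ∃ᶠ n in atTop, ω ∈ {ω | ¬ Ok n (F (initSeg (XX ω) n ++ [true])) ω}})) ∪
      ⋃ k : ℕ × ℕ, {ω | val F (Id (n1 + k.1) ω) (initSeg (XX ω) (n1 + k.1)) ≤ k.2 ∧
        (∀ i, n1 + k.1 ≤ i → cond F i ω) ∧
        ∀ C : ℕ, ∃ i, n1 + k.1 ≤ i ∧ (C : ℝ) ≤ val F (Id i ω) (initSeg (XX ω) i)}) = 0 := by
    rw [measure_union_null_iff, measure_union_null_iff, measure_union_null_iff,
      measure_iUnion_null_iff]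
    refine ⟨⟨hF.null_hit (by simp), hF.null_hit (by simp), hF.null_hit (by simp)⟩, fun k => ?_⟩
    exact hF.null_large (fun i hi => hn1 i (by omega)) k.2
  refine measure_mono_null ?_ hnull
  rintro ω ⟨d, f, hd, h1, h2, hX⟩
  by_contra hc
  simp only [Set.mem_union, not_or] at hc
  obtain ⟨⟨c1, c2, c3⟩, c4⟩ := hc
  simp only [Set.mem_ofPred_eq, not_frequently, not_not] at c1 c2 c3
  obtain ⟨n0, hn0⟩ := eventually_atTop.1 (c1.and (c2.and c3))
  set g : List Bool → ℝ := fun w => max (f (2 * w.length + 2) w : ℝ) 0 with hg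
  have hrun : ∀ w, val F (Or ω) w = g w := by
    intro w
    rw [val, hFdef, FM, QT.run_map]
    have h3 := h2 (2 * w.length + 2) w
    have e : 2 * w.length + 2 + w.length = 3 * w.length + 2 := by ring
    rw [e] at h3
    have h4 := M.qt_of_outputs h3 []
    show dec _ = _
    rw [h4, dec_ratCode]
  have happ : ∀ w, |g w - d w| ≤ (1 / 4) ^ w.length / 4 := by
    intro w
    have h3 := h1 (2 * w.length + 2) w
    have h4 : (2 : ℝ) ^ (-((2 * w.length + 2 : ℕ) : ℝ)) = (1 / 4) ^ w.length / 4 := by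
      rw [← half_pow, pow_add, pow_mul]
      norm_num
      ring
    rw [h4] at h3
    have h5 := hd.1 w
    have h6 : d w = max (d w) 0 := (max_eq_left h5).symm
    refine le_trans ?_ h3
    rw [hg]
    conv_lhs => rw [h6]
    exact abs_max_sub_max_le_abs _ _ _
  have hval : ∀ n, n0 ≤ n → val F (Id n ω) (initSeg (XX ω) n) = g (initSeg (XX ω) n) := by
    intro n hn
    have h3 := (hn0 n hn).1.run
    rw [List.append_nil] at h3
    rw [← hrun, val, val, h3]
  have hval' : ∀ n, n0 ≤ n → ∀ b, val F (Id n ω) (initSeg (XX ω) n ++ [b]) =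
      g (initSeg (XX ω) n ++ [b]) := by
    intro n hn b
    cases b
    · rw [← hrun, val, val, (hn0 n hn).2.1.run]
    · rw [← hrun, val, val, (hn0 n hn).2.2.run]
  have hcond : ∀ i, n0 ≤ i → cond F i ω := by
    intro i hi
    refine ⟨?_, ?_⟩
    · rw [hval i hi, hval' i hi, hval' i hi]
      set u := initSeg (XX ω) i with hu
      have a1 := abs_le.1 (happ (u ++ [false]))
      have a2 := abs_le.1 (happ (u ++ [true]))
      have a3 := abs_le.1 (happ u)
      simp only [List.length_append, List.length_singleton, pow_succ] at a1 a2 a3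
      have hul : u.length = i := length_initSeg _ _
      rw [hul] at a1 a2 a3
      have h3 : d (u ++ [false]) + d (u ++ [true]) = 2 * d u := by
        have h4 := hd.2 u
        rw [Real.rpow_neg (by norm_num), Real.rpow_one] at h4
        linarith
      have h7 : (0 : ℝ) < (1 / 4) ^ i := by positivity
      linarith [a1.1, a1.2, a2.1, a2.2, a3.1, a3.2]
    · rw [hval (i + 1) (by omega), initSeg_succ, hval' i hi]
  obtain ⟨K, hK⟩ := exists_nat_ge (g (initSeg (XX ω) (n1 + n0)))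
  refine c4 (Set.mem_iUnion.2 ⟨(n0, K), ?_, fun i hi => hcond i (by
    have : n1 + n0 ≤ i := hi
    omega), fun C => ?_⟩)
  · rw [hval _ (by show n0 ≤ n1 + n0; omega)]
    exact hK
  · obtain ⟨m, hm1, hm2⟩ := hX (C + 1) (n1 + n0)
    refine ⟨m, hm1, ?_⟩
    rw [hval m (by omega)]
    have a1 := abs_le.1 (happ (initSeg (XX ω) m))
    have h7 : (1 / 4 : ℝ) ^ (initSeg (XX ω) m).length ≤ 1 := pow_le_one₀ (by norm_num) (by norm_num)
    linarith [a1.1]

end Pool.Agent.Helper37PR
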