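import Pool.Agent.Helper37PR.Upp

set_option autoImplicit false

namespace Pool.Agent.Helper37PR

open Pool.Agent.Helper76.Dim
open Pool.Agent.Helper79K.DM (Om mu XX RR chi_RR)

open MeasureTheory Filter

theorem exists_notMem_of_null {S : Set Om} (h : mu S = 0) : ∃ ω, ω ∉ S := by
  by_contra hc
  push Not at hc
  rw [Set.eq_univ_of_forall hc, measure_univ] at h
  exact one_ne_zero h

theorem exists_good : ∃ ω : Om,
    (∀ (M : DTM) (p : Polynomial ℕ) (d : List Bool → ℝ) (f : ℕ → List Bool → ℚ), IsGale 1 d →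
      (∀ r w, |(f r w : ℝ) - d w| ≤ 2 ^ (-(r : ℝ))) →
      (∀ r w, M.Outputs (Or ω) (inp r w) (p.eval (r + w.length)) (ratCode (f r w))) →
      ¬ Succeeds d (XX ω)) ∧
    (∀ (D : DTM) (c : ℕ), ¬ ∃ᶠ j in atTop,
      ω ∈ {ω | ∃ i < kl j, ¬ Ok (mj j) (tr D c (str (2 ^ ar j - 1 + i))) ω}) ∧
    (∀ (D : DTM) (c : ℕ), ¬ ∃ᶠ j in atTop, ω ∈ Ev D c j) := by
  have h1 : mu ((⋃ q : DTM × Polynomial ℕ,
      {ω | ∃ (d : List Bool → ℝ) (f : ℕ → List Bool → ℚ), IsGale 1 d ∧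
      (∀ r w, |(f r w : ℝ) - d w| ≤ 2 ^ (-(r : ℝ))) ∧
      (∀ r w, q.1.Outputs (Or ω) (inp r w) (q.2.eval (r + w.length)) (ratCode (f r w))) ∧
      Succeeds d (XX ω)}) ∪ ⋃ q : DTM × ℕ, ({ω | ∃ᶠ j in atTop,
      ω ∈ {ω | ∃ i < kl j, ¬ Ok (mj j) (tr q.1 q.2 (str (2 ^ ar j - 1 + i))) ω}} ∪
      {ω | ∃ᶠ j in atTop, ω ∈ Ev q.1 q.2 j})) = 0 := by
    rw [measure_union_null_iff, measure_iUnion_null_iff, measure_iUnion_null_iff]
    refine ⟨fun q => null_succ q.1 q.2, fun q => ?_⟩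
    rw [measure_union_null_iff]
    exact ⟨null_hits q.1 q.2, null_Ev q.1 q.2⟩
  obtain ⟨ω, hω⟩ := exists_notMem_of_null h1
  simp only [Set.mem_union, Set.mem_iUnion, not_or, not_exists] at hω
  obtain ⟨h2, h3⟩ := hω
  refine ⟨ω, fun M p d f g1 g2 g3 g4 => h2 (M, p) ⟨d, f, g1, g2, g3, g4⟩,
    fun D c => (h3 (D, c)).1, fun D c => (h3 (D, c)).2⟩

/-- There is an oracle relative to which `NP` contains a p-random language although the class of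
the languages in `NP` and `E` has p-dimension zero. -/
theorem exists_oracle : ∃ A : Set (List Bool),
    (∃ R ∈ NP A, ∀ d, IsGale 1 d → PComputable A d → ¬ Succeeds d (chi R)) ∧
    ∃ d, IsGale 1 d ∧ PComputable A d ∧ ∀ L ∈ NP A ∩ EE A, ∀ s : ℝ, 0 < s →
      Succeeds (fun w => 2 ^ ((s - 1) * (w.length : ℝ)) * d w) (chi L) := by
  obtain ⟨ω, h1, h2, h3⟩ := exists_good
  refine ⟨Or ω, ⟨RR ω, RR_mem_NP ω, ?_⟩, mm ω, mm_isGale ω, mm_computable ω,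
    fun L hL s hs => succeeds h2 h3 hL hs⟩
  rintro d hd ⟨M, p, f, g1, g2⟩
  rw [chi_RR]
  exact h1 M p d f hd g1 g2

end Pool.Agent.Helper37PR
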