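import Pool.Agent.Helper37PR.Orc

set_option autoImplicit false

/-!
# The martingale stored in the table
-/

namespace Pool.Agent.Helper37PR

open Pool.Agent.Helper76.Dim
open Pool.Agent.Helper79K.DM (Om coin mu mu_cyl Dep mach mach_surj tb Fam apx Bit Rb wit Hid Agree
  AgreeF CC win_append_in win_append_short win_append_long isPrefix_split not_both apx_le
  length_out MG MG_outputs MR MR_accepts reach_Fm RR length_wit)

open MeasureTheory

theorem length_por_le (j : ℕ) (w : List Bool) : (por j w).length ≤ kl j := by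
  simp [por]

theorem pr_nonneg (F : Fam) (j : ℕ) (ω : Om) (u : List Bool) : 0 ≤ pr F j ω u :=
  measureReal_nonneg

theorem aa_nonneg (F : Fam) (j : ℕ) (ω : Om) (w : List Bool) : 0 ≤ aa F j ω w :=
  mul_nonneg (by positivity) (pr_nonneg _ _ _ _)

theorem pr_split (j : ℕ) (ω : Om) {u : List Bool} (h : u.length < kl j) :
    pr Or j ω (u ++ [false]) + pr Or j ω (u ++ [true]) = pr Or j ω u := by
  rw [pr, pr, pr, ← measureReal_union]
  · congr 1
    ext ω'
    simp only [Set.mem_union, Set.mem_ofPred_eq]
    exact (isPrefix_split (by rw [length_key]; exact h)).symm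
  · rw [Set.disjoint_left]
    exact fun ω' h1 h2 => not_both h1 h2
  · exact measurable_key j ω fun l => u ++ [true] <+: l

theorem aa_mart (j : ℕ) (ω : Om) (w : List Bool) :
    aa Or j ω (w ++ [false]) + aa Or j ω (w ++ [true]) = 2 * aa Or j ω w := by
  rcases lt_or_ge w.length (2 ^ ar j - 1) with h1 | h1
  · rw [aa, aa, aa, por, por, por, win_append_short _ h1, win_append_short _ h1]
    ring
  · rcases lt_or_ge w.length (2 ^ ar j - 1 + kl j) with h2 | h2
    · have h3 : (por j w).length < kl j := by
        simp only [por, List.length_take, List.length_drop]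
        omega
      rw [aa, aa, aa, por, por, win_append_in _ h1 h2, win_append_in _ h1 h2, ← por,
        List.length_append, List.length_append, List.length_singleton, List.length_singleton,
        ← pr_split j ω h3]
      ring
    · rw [aa, aa, aa, por, por, por, win_append_long _ h2, win_append_long _ h2]
      ring

theorem lt_two_pow_ar (j : ℕ) : j < 2 ^ ar j := (lt_ar j).trans Nat.lt_two_pow_self

/-- the martingale for the sample point `ω` -/
noncomputable def mm (ω : Om) (w : List Bool) : ℝ := MM Or ω w

theorem mm_mart (ω : Om) (w : List Bool) :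
    mm ω (w ++ [false]) + mm ω (w ++ [true]) = 2 * mm ω w := by
  have h2 : mm ω (w ++ [false]) + mm ω (w ++ [true]) =
      ∑ j ∈ Finset.range (w.length + 2), (1 / 2) ^ (j + 1) * (2 * aa Or j ω w) +
      2 * (1 / 2) ^ (w.length + 2) := by
    simp only [mm, MM, List.length_append, List.length_singleton]
    have : ∀ j, (1 / 2 : ℝ) ^ (j + 1) * (2 * aa Or j ω w) =
        (1 / 2) ^ (j + 1) * aa Or j ω (w ++ [false]) +
        (1 / 2) ^ (j + 1) * aa Or j ω (w ++ [true]) := by
      intro j
      rw [← aa_mart j ω w]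
      ring
    simp only [this]
    rw [Finset.sum_add_distrib]
    ring
  have h3 : aa Or (w.length + 1) ω w = 1 :=
    aa_short Or ω ((Nat.lt_succ_self _).trans (lt_two_pow_ar _))
  rw [h2, mm, MM, Finset.sum_range_succ, h3]
  have h4 : ∑ j ∈ Finset.range (w.length + 1), (1 / 2 : ℝ) ^ (j + 1) * (2 * aa Or j ω w) =
      2 * ∑ j ∈ Finset.range (w.length + 1), (1 / 2 : ℝ) ^ (j + 1) * aa Or j ω w := by
    rw [Finset.mul_sum]
    exact Finset.sum_congr rfl fun t _ => by ring
  rw [h4]
  ring

theorem mm_nil (ω : Om) : mm ω [] = 1 := by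
  simp only [mm, MM, List.length_nil, zero_add, Finset.sum_range_one]
  rw [aa_short Or ω (by
    have : 2 ≤ 2 ^ ar 0 := by
      calc 2 = 2 ^ 1 := rfl
        _ ≤ 2 ^ ar 0 := Nat.pow_le_pow_right (by norm_num) (lt_ar 0)
    simp only [List.length_nil]
    omega)]
  norm_num

theorem MM_nonneg (F : Fam) (ω : Om) (w : List Bool) : 0 ≤ MM F ω w := by
  refine add_nonneg (Finset.sum_nonneg fun t _ => ?_) (by positivity)
  have h1 := aa_nonneg F t ω w
  positivity

theorem mm_le (ω : Om) (w : List Bool) : mm ω w ≤ 2 ^ w.length := by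
  induction w using List.reverseRecOn with
  | nil => rw [mm_nil]; simp
  | append_singleton w b ih =>
    have h1 := mm_mart ω w
    have h2 : 0 ≤ mm ω (w ++ [false]) := MM_nonneg _ _ _
    have h3 : 0 ≤ mm ω (w ++ [true]) := MM_nonneg _ _ _
    rw [List.length_append, List.length_singleton, pow_succ]
    cases b <;> linarith

theorem mm_isGale (ω : Om) : IsGale 1 (mm ω) := by
  refine ⟨fun w => MM_nonneg _ _ _, fun w => ?_⟩
  rw [mm_mart, Real.rpow_neg (by norm_num), Real.rpow_one]
  ring

/-- The martingale is computable in polynomial time relative to the oracle. -/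
theorem mm_computable (ω : Om) : PComputable (Or ω) (mm ω) := by
  refine ⟨MG, 20 * Polynomial.X + 43, fun r w => apx r (mm ω w), fun r w => apx_le r _, ?_⟩
  intro r w
  refine MG_outputs (fun j => ?_) ?_
  · rw [mem_Or, mem_FF_tab (kind_tab r w j)]
    rfl
  · have h1 := length_out (r := r) ((mm_isGale ω).1 w) (mm_le ω w)
    simp only [Polynomial.eval_add, Polynomial.eval_mul, Polynomial.eval_X,
      Polynomial.eval_ofNat]
    have h2 : (inp r w).length = r + 1 + w.length := by
      simp [inp]
      omega
    rw [h2]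
    omega

/-- The hidden language is in `NP` relative to the oracle. -/
theorem RR_mem_NP (ω : Om) : RR ω ∈ NP (Or ω) := by
  have hclk : ∀ x y : List Bool, encH x y false ∈ Or ω ↔ y.length < x.length ^ 2 := by
    intro x y
    rw [mem_Or, mem_FF_clk (kind_clk x y)]
  have hhid : ∀ x y : List Bool, encH x y true ∈ Or ω ↔ Hid ω x y := by
    intro x y
    rw [mem_Or, mem_FF_hid (kind_hid x y)]
  refine ⟨MR, 3 * Polynomial.X ^ 2 + 2 * Polynomial.X + 8, fun x m c h => ?_, fun x => ?_⟩
  · have h1 := (reach_Fm (hclk x) m c h).bound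
    simpa using h1
  · constructor
    · intro hx
      exact MR_accepts (hclk x) (length_wit ω x) ((hhid x _).2 ⟨hx, rfl⟩)
    · rintro ⟨m, c, h1, h2⟩
      obtain ⟨y, hy⟩ := (reach_Fm (hclk x) m c h1).accept h2
      exact ((hhid x y).1 hy).1

end Pool.Agent.Helper37PR
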