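import Pool.Agent.Helper79K.DM.RM

set_option autoImplicit false

/-!
# Resampling independent coins
-/

namespace Pool.Agent.Helper37PR

open Pool.Agent.Helper79K.DM (Om coin mu mu_cyl Dep)

open MeasureTheory

/-- the sample point which agrees with `ω` on the coordinates in `P` and with `ω'` on the others -/
noncomputable def mixP (P : ℕ × ℕ → Prop) [DecidablePred P] (ω ω' : Om) : Om :=
  fun c => if P c then ω c else ω' c

theorem measurable_mixP (P : ℕ × ℕ → Prop) [DecidablePred P] :
    Measurable fun q : Om × Om => mixP P q.1 q.2 := by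
  refine measurable_pi_iff.2 fun c => ?_
  by_cases h : P c
  · simp only [mixP, if_pos h]
    exact (measurable_pi_apply c).comp measurable_fst
  · simp only [mixP, if_neg h]
    exact (measurable_pi_apply c).comp measurable_snd

theorem map_mixP (P : ℕ × ℕ → Prop) [DecidablePred P] :
    (mu.prod mu).map (fun q => mixP P q.1 q.2) = mu := by
  unfold mu
  refine Measure.eq_infinitePi _ fun s t ht => ?_
  rw [Measure.map_apply (measurable_mixP P) (MeasurableSet.pi s.countable_toSet fun i _ => ht i)]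
  have h1 : (fun q : Om × Om => mixP P q.1 q.2) ⁻¹' (Set.pi (s : Set (ℕ × ℕ)) t) =
      (Set.pi ((s.filter P : Finset (ℕ × ℕ)) : Set (ℕ × ℕ)) t) ×ˢ
        (Set.pi ((s.filter fun c => ¬ P c : Finset (ℕ × ℕ)) : Set (ℕ × ℕ)) t) := by
    ext ⟨a, b⟩
    simp only [Set.mem_preimage, Set.mem_pi, Set.mem_prod, Finset.coe_filter, Set.mem_ofPred_eq,
      Finset.mem_coe, mixP]
    constructor
    · intro h
      refine ⟨fun c hc => ?_, fun c hc => ?_⟩
      · have := h c hc.1
        rwa [if_pos hc.2] at this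
      · have := h c hc.1
        rwa [if_neg hc.2] at this
    · rintro ⟨h2, h3⟩ c hc
      by_cases h4 : P c
      · rw [if_pos h4]
        exact h2 c ⟨hc, h4⟩
      · rw [if_neg h4]
        exact h3 c ⟨hc, h4⟩
  rw [h1, Measure.prod_prod, Measure.infinitePi_pi _ (fun i _ => ht i),
    Measure.infinitePi_pi _ (fun i _ => ht i), Finset.prod_filter_mul_prod_filter_not]

/-- If all conditional probabilities are at most `c`, then so is the probability. -/
theorem mu_le_of_mixP (P : ℕ × ℕ → Prop) [DecidablePred P] {E : Set Om} (hE : MeasurableSet E)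
    {c : ℝ} (hc : 0 ≤ c) (h : ∀ ω, mu.real {ω' | mixP P ω ω' ∈ E} ≤ c) : mu.real E ≤ c := by
  have h1 : mu E ≤ ENNReal.ofReal c := by
    rw [← map_mixP P, Measure.map_apply (measurable_mixP P) hE,
      Measure.prod_apply (measurable_mixP P hE)]
    have h2 : ∀ ω, mu (Prod.mk ω ⁻¹' ((fun q : Om × Om => mixP P q.1 q.2) ⁻¹' E)) ≤
        ENNReal.ofReal c := by
      intro ω
      rw [← ofReal_measureReal (measure_ne_top _ _)]
      exact ENNReal.ofReal_le_ofReal (h ω)
    refine (lintegral_mono h2).trans ?_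
    rw [lintegral_const, measure_univ, mul_one]
  rw [Measure.real]
  exact ENNReal.toReal_le_of_le_ofReal hc h1

/-- the sample point which agrees with `ω` for the first `m` strings and with `ω'` afterwards -/
noncomputable def mix (m : ℕ) (ω ω' : Om) : Om := mixP (fun c => c.1 < m) ω ω'

theorem mix_lt {m : ℕ} {ω ω' : Om} {c : ℕ × ℕ} (h : c.1 < m) : mix m ω ω' c = ω c := if_pos h

theorem mix_ge {m : ℕ} {ω ω' : Om} {c : ℕ × ℕ} (h : m ≤ c.1) : mix m ω ω' c = ω' c :=
  if_neg (not_lt.2 h)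

/-- agreement on the coordinates belonging to the first `m` strings -/
def Ag (m : ℕ) (ω ω' : Om) : Prop := ∀ c : ℕ × ℕ, c.1 < m → ω c = ω' c

theorem Ag.mix (m : ℕ) (ω ω' : Om) : Ag m (mix m ω ω') ω := fun _ hc => mix_lt hc

theorem Ag.symm {m : ℕ} {ω ω' : Om} (h : Ag m ω ω') : Ag m ω' ω := fun c hc => (h c hc).symm

theorem Ag.mono {m m' : ℕ} {ω ω' : Om} (h : Ag m ω ω') (hm : m' ≤ m) : Ag m' ω ω' :=
  fun c hc => h c (hc.trans_le hm)

theorem mix_congr {m : ℕ} {ω ω' η : Om} (h : Ag m ω ω') : mix m ω η = mix m ω' η := by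
  funext c
  by_cases hc : c.1 < m
  · rw [mix_lt hc, mix_lt hc, h c hc]
  · rw [mix_ge (not_lt.1 hc), mix_ge (not_lt.1 hc)]

theorem mu_le_of_mix (m : ℕ) {E : Set Om} (hE : MeasurableSet E)
    {c : ℝ} (hc : 0 ≤ c) (h : ∀ ω, mu.real {ω' | mix m ω ω' ∈ E} ≤ c) : mu.real E ≤ c :=
  mu_le_of_mixP (fun c => c.1 < m) hE hc h

end Pool.Agent.Helper37PR
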