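import Pool.Agent.Helper37PR.Mix

set_option autoImplicit false

/-!
# The oracles

The oracle has a hidden part, which codes a random language together with random witnesses, and a
table, which stores the values of a martingale. The martingale is the sum, over scales `j`, of the
martingales of the conditional distributions of the language of a nondeterministic machine on the
strings of length between `ar j` and `ti j`, given the hidden part for strings of length less than
`lo j`.
-/

namespace Pool.Agent.Helper37PR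

open Pool.Agent.Helper76.Dim
open Pool.Agent.Helper79K.DM (Om coin mu mu_cyl Dep mach mach_surj tb Fam apx Bit Rb wit Hid Agree
  AgreeF CC Rb_dep wit_dep CC_mono eval_mono)

open MeasureTheory

/-! ### The scales -/

/-- the basic parameter -/
def vv (j : ℕ) : ℕ := 2 ^ 2 ^ j

/-- the hidden part for strings of length less than `lo j` is revealed at scale `j` -/
def lo (j : ℕ) : ℕ := vv j ^ 2

/-- the first length of scale `j` -/
def ar (j : ℕ) : ℕ := vv j ^ 3

/-- the last length of scale `j` -/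
def ti (j : ℕ) : ℕ := 2 * ar j

/-- the number of strings of length less than `lo j` -/
def mj (j : ℕ) : ℕ := 2 ^ lo j - 1

theorem vv_pos (j : ℕ) : 2 ≤ vv j := by
  have h : 1 ≤ 2 ^ j := Nat.one_le_two_pow
  calc 2 = 2 ^ 1 := rfl
    _ ≤ 2 ^ 2 ^ j := Nat.pow_le_pow_right (by norm_num) h

theorem vv_succ (j : ℕ) : vv (j + 1) = vv j ^ 2 := by
  rw [vv, vv, ← pow_mul, pow_succ]

theorem vv_mono {i j : ℕ} (h : i ≤ j) : vv i ≤ vv j :=
  Nat.pow_le_pow_right (by norm_num) (Nat.pow_le_pow_right (by norm_num) h)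

theorem lt_vv (j : ℕ) : j < vv j := Nat.lt_two_pow_self.trans Nat.lt_two_pow_self

theorem lo_mono {i j : ℕ} (h : i ≤ j) : lo i ≤ lo j := Nat.pow_le_pow_left (vv_mono h) 2

theorem ar_mono {i j : ℕ} (h : i ≤ j) : ar i ≤ ar j := Nat.pow_le_pow_left (vv_mono h) 3

theorem mj_mono {i j : ℕ} (h : i ≤ j) : mj i ≤ mj j :=
  Nat.sub_le_sub_right (Nat.pow_le_pow_right (by norm_num) (lo_mono h)) 1

theorem ar_succ (j : ℕ) : ar (j + 1) = ar j ^ 2 := by
  rw [ar, ar, vv_succ]
  ring

theorem vv_le_ar (j : ℕ) : vv j ≤ ar j := Nat.le_self_pow (by norm_num) _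

theorem lt_ar (j : ℕ) : j < ar j := (lt_vv j).trans_le (vv_le_ar j)

/-- The language treated at scale `j`, relative to `A`. -/
def LL (j : ℕ) (A : Set (List Bool)) : Set (List Bool) :=
  {x | tb j (ti j) ≤ 2 ^ ar j ∧ (mach j.unpair.1).1.AccIn A (tb j x.length) x}

/-- the number of strings of scale `j` -/
def kl (j : ℕ) : ℕ := 2 ^ (ti j + 1) - 2 ^ ar j

theorem kl_add (j : ℕ) : 2 ^ ar j - 1 + kl j = 2 ^ (ti j + 1) - 1 := by
  have h1 : 2 ^ ar j ≤ 2 ^ (ti j + 1) := Nat.pow_le_pow_right (by norm_num) (by rw [ti]; omega)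
  have h2 : 1 ≤ 2 ^ ar j := Nat.one_le_two_pow
  rw [kl]
  omega

open Classical in
/-- the key of scale `j`: the characteristic sequence of the language on the strings of scale
`j` -/
noncomputable def key (A : Set (List Bool)) (j : ℕ) : List Bool :=
  (List.range (kl j)).map fun i => decide (str (2 ^ ar j - 1 + i) ∈ LL j A)

/-- the part of `w` corresponding to the strings of scale `j` -/
def por (j : ℕ) (w : List Bool) : List Bool := (w.drop (2 ^ ar j - 1)).take (kl j)

/-- the conditional probability that the key of scale `j` starts with `u` -/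
noncomputable def pr (F : Fam) (j : ℕ) (ω : Om) (u : List Bool) : ℝ :=
  mu.real {ω' | u <+: key (F (mix (mj j) ω ω')) j}

/-- the martingale of the conditional distribution of the key -/
noncomputable def aa (F : Fam) (j : ℕ) (ω : Om) (w : List Bool) : ℝ :=
  2 ^ (por j w).length * pr F j ω (por j w)

/-- the total martingale -/
noncomputable def MM (F : Fam) (ω : Om) (w : List Bool) : ℝ :=
  ∑ j ∈ Finset.range (w.length + 1), (1 / 2) ^ (j + 1) * aa F j ω w + (1 / 2) ^ (w.length + 1)

/-- the word which is stored for the input `r`, `w` -/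
noncomputable def out (F : Fam) (ω : Om) (r : ℕ) (w : List Bool) : List Bool :=
  ratCode (apx r (MM F ω w))

/-- One step of the recursion. -/
def FF (F : Fam) : Fam := fun ω =>
  {z | match kind z with
    | .tab r w j => Bit (out F ω r w) j
    | .clk x y => y.length < x.length ^ 2
    | .hid x y => Hid ω x y
    | .other => False}

/-- the approximations -/
noncomputable def Aux : ℕ → Fam
  | 0 => fun _ => ∅
  | m + 1 => FF (Aux m)

/-- The oracles. -/
noncomputable def Or : Fam := fun ω => {z | z ∈ Aux (z.length + 1) ω}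

/-! ### Locality -/

theorem tb_mono {j a b : ℕ} (h : a ≤ b) : tb j a ≤ tb j b := eval_mono _ h

theorem mem_LL_congr {j : ℕ} {A B : Set (List Bool)} (h : Agree (2 ^ ar j) A B) {x : List Bool}
    (hx : x.length ≤ ti j) : x ∈ LL j A ↔ x ∈ LL j B := by
  simp only [LL, Set.mem_ofPred_eq]
  refine and_congr_right fun h1 => ?_
  exact (mach j.unpair.1).1.accIn_congr x fun z hz =>
    h z (hz.trans_le ((tb_mono hx).trans h1))

theorem length_key (A : Set (List Bool)) (j : ℕ) : (key A j).length = kl j := by simp [key]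

theorem idx_key {j i : ℕ} (hi : i < kl j) :
    ar j ≤ (str (2 ^ ar j - 1 + i)).length ∧ (str (2 ^ ar j - 1 + i)).length ≤ ti j := by
  have h1 := kl_add j
  have h2 : 1 ≤ 2 ^ ar j := Nat.one_le_two_pow
  have h3 : 1 ≤ 2 ^ (ti j + 1) := Nat.one_le_two_pow
  have h4 := length_str_le (2 ^ ar j - 1 + i)
  constructor
  · by_contra hc
    have h5 : 2 ^ ((str (2 ^ ar j - 1 + i)).length + 1) ≤ 2 ^ ar j :=
      Nat.pow_le_pow_right (by norm_num) (by omega)
    omega
  · by_contra hc
    have h5 : 2 ^ (ti j + 1) ≤ 2 ^ (str (2 ^ ar j - 1 + i)).length :=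
      Nat.pow_le_pow_right (by norm_num) (by omega)
    omega

theorem key_congr {j : ℕ} {A B : Set (List Bool)} (h : Agree (2 ^ ar j) A B) :
    key A j = key B j := by
  refine List.map_congr_left fun i hi => ?_
  rw [List.mem_range] at hi
  exact decide_eq_decide.2 (mem_LL_congr h (idx_key hi).2)

theorem por_short {j : ℕ} {w : List Bool} (h : w.length < 2 ^ ar j) : por j w = [] := by
  rw [por, List.drop_of_length_le (by omega), List.take_nil]

theorem pr_nil (F : Fam) (j : ℕ) (ω : Om) : pr F j ω [] = 1 := by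
  simp [pr]

theorem aa_short (F : Fam) {j : ℕ} (ω : Om) {w : List Bool} (h : w.length < 2 ^ ar j) :
    aa F j ω w = 1 := by
  rw [aa, por_short h, pr_nil]
  simp

theorem pr_congr {j : ℕ} {F G : Fam} (h : AgreeF (2 ^ ar j) F G) (ω : Om) (u : List Bool) :
    pr F j ω u = pr G j ω u := by
  rw [pr, pr]
  congr 1
  ext ω'
  rw [Set.mem_ofPred_eq, Set.mem_ofPred_eq, key_congr (h _)]

theorem aa_congr {l : ℕ} {F G : Fam} (h : AgreeF l F G) {w : List Bool} (hw : w.length ≤ l)
    (j : ℕ) (ω : Om) : aa F j ω w = aa G j ω w := by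
  by_cases ht : w.length < 2 ^ ar j
  · rw [aa_short F ω ht, aa_short G ω ht]
  · rw [aa, aa, pr_congr (h.mono (by omega))]

theorem MM_congr {l : ℕ} {F G : Fam} (h : AgreeF l F G) {w : List Bool} (hw : w.length ≤ l)
    (ω : Om) : MM F ω w = MM G ω w := by
  rw [MM, MM]
  congr 1
  exact Finset.sum_congr rfl fun t _ => by rw [aa_congr h hw]

theorem out_congr {l : ℕ} {F G : Fam} (h : AgreeF l F G) {w : List Bool} (hw : w.length ≤ l)
    (ω : Om) (r : ℕ) : out F ω r w = out G ω r w := by
  rw [out, out, MM_congr h hw]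

theorem mem_FF_tab {F : Fam} {ω : Om} {z : List Bool} {r : ℕ} {w : List Bool} {j : ℕ}
    (hk : kind z = .tab r w j) : z ∈ FF F ω ↔ Bit (out F ω r w) j := by
  simp only [FF, Set.mem_ofPred_eq, hk]

theorem mem_FF_clk {F : Fam} {ω : Om} {z x y : List Bool}
    (hk : kind z = .clk x y) : z ∈ FF F ω ↔ y.length < x.length ^ 2 := by
  simp only [FF, Set.mem_ofPred_eq, hk]

theorem mem_FF_hid {F : Fam} {ω : Om} {z x y : List Bool}
    (hk : kind z = .hid x y) : z ∈ FF F ω ↔ Hid ω x y := by
  simp only [FF, Set.mem_ofPred_eq, hk]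

theorem mem_FF_other {F : Fam} {ω : Om} {z : List Bool}
    (hk : kind z = .other) : z ∉ FF F ω := by
  simp only [FF, Set.mem_ofPred_eq, hk, not_false_eq_true]

theorem FF_agree {l : ℕ} {F G : Fam} (h : AgreeF l F G) : AgreeF (l + 1) (FF F) (FF G) := by
  intro ω z hz
  cases hk : kind z with
  | tab r w j =>
    have h1 := length_lt_of_tab hk
    have h2 : w.length ≤ l := by omega
    rw [mem_FF_tab hk, mem_FF_tab hk, out_congr h h2]
  | clk x y => rw [mem_FF_clk hk, mem_FF_clk hk]
  | hid x y => rw [mem_FF_hid hk, mem_FF_hid hk]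
  | other => exact iff_of_false (mem_FF_other hk) (mem_FF_other hk)

theorem Aux_agree (m : ℕ) : AgreeF m (Aux m) (Aux (m + 1)) := by
  induction m with
  | zero => exact fun ω z hz => absurd hz (Nat.not_lt_zero _)
  | succ m ih => exact FF_agree ih

theorem Aux_agree' (m j : ℕ) : AgreeF m (Aux m) (Aux (m + j)) := by
  induction j with
  | zero => exact fun ω z _ => Iff.rfl
  | succ j ih =>
    intro ω z hz
    exact (ih ω z hz).trans (Aux_agree (m + j) ω z (hz.trans_le (Nat.le_add_right _ _)))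

theorem mem_Or_def {ω : Om} {z : List Bool} : z ∈ Or ω ↔ z ∈ Aux (z.length + 1) ω := by
  rw [Or, Set.mem_ofPred_eq]

theorem Or_agree (m : ℕ) : AgreeF m Or (Aux m) := by
  intro ω z hz
  obtain ⟨j, hj⟩ : ∃ j, m = z.length + 1 + j := ⟨m - (z.length + 1), by omega⟩
  have h1 := Aux_agree' (z.length + 1) j ω z (Nat.lt_succ_self _)
  rw [hj, mem_Or_def]
  exact h1

/-- The fixed point equation. -/
theorem Or_eq : Or = FF Or := by
  funext ω
  ext z
  have h1 := Or_agree (z.length + 1) ω z (Nat.lt_succ_self _)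
  have h2 := FF_agree (Or_agree z.length) ω z (Nat.lt_succ_self _)
  rw [h1, h2, Aux]

theorem mem_Or {ω : Om} {z : List Bool} : z ∈ Or ω ↔ z ∈ FF Or ω := by
  conv_lhs => rw [Or_eq]

/-! ### Dependence on finitely many coordinates -/

theorem Or_dep (l : ℕ) {ω ω' : Om} (h : ∀ c ∈ CC l, ω c = ω' c) : Agree l (Or ω) (Or ω') := by
  induction l generalizing ω ω' with
  | zero => exact fun z hz => absurd hz (Nat.not_lt_zero _)
  | succ l ih =>
    intro z hz
    rw [mem_Or, mem_Or]
    cases hk : kind z with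
    | tab r w j =>
      have h1 := length_lt_of_tab hk
      have h2 : MM Or ω w = MM Or ω' w := by
        rw [MM, MM]
        congr 1
        refine Finset.sum_congr rfl fun t _ => ?_
        by_cases ht : w.length < 2 ^ ar t
        · rw [aa_short Or ω ht, aa_short Or ω' ht]
        · have h3 : ∀ η, key (Or (mix (mj t) ω η)) t = key (Or (mix (mj t) ω' η)) t := by
            intro η
            refine key_congr ((ih ?_).mono (by omega : 2 ^ ar t ≤ l))
            intro c hc
            by_cases h4 : c.1 < mj t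
            · rw [mix_lt h4, mix_lt h4]
              exact h c (CC_mono (Nat.le_succ l) hc)
            · rw [mix_ge (not_lt.1 h4), mix_ge (not_lt.1 h4)]
          rw [aa, aa, pr, pr]
          simp only [h3]
      rw [mem_FF_tab hk, mem_FF_tab hk, out, out, h2]
    | clk x y => rw [mem_FF_clk hk, mem_FF_clk hk]
    | hid x y =>
      have h1 := length_lt_of_hid hk
      have h2 : x.length < l + 1 := by omega
      rw [mem_FF_hid hk, mem_FF_hid hk, Hid, Hid, Rb_dep h2 h, wit_dep h2 h]
    | other => exact iff_of_false (mem_FF_other hk) (mem_FF_other hk)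

theorem pr_dep {j l : ℕ} (hl : 2 ^ ar j ≤ l) {ω ω' : Om} (h : ∀ c ∈ CC l, ω c = ω' c)
    (u : List Bool) : pr Or j ω u = pr Or j ω' u := by
  rw [pr, pr]
  congr 1
  ext η
  have h3 : key (Or (mix (mj j) ω η)) j = key (Or (mix (mj j) ω' η)) j := by
    refine key_congr ((Or_dep l ?_).mono hl)
    intro c hc
    by_cases h4 : c.1 < mj j
    · rw [mix_lt h4, mix_lt h4]
      exact h c hc
    · rw [mix_ge (not_lt.1 h4), mix_ge (not_lt.1 h4)]
  rw [Set.mem_ofPred_eq, Set.mem_ofPred_eq, h3]

theorem pr_ag {j : ℕ} {ω ω' : Om} (h : Ag (mj j) ω ω') (u : List Bool) :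
    pr Or j ω u = pr Or j ω' u := by
  rw [pr, pr]
  simp only [mix_congr h]

theorem measurable_key (j : ℕ) (ω : Om) (P : List Bool → Prop) :
    MeasurableSet {ω' | P (key (Or (mix (mj j) ω ω')) j)} := by
  refine Dep.measurable (C := CC (2 ^ ar j)) fun ω' ω'' h => ?_
  have h3 : key (Or (mix (mj j) ω ω')) j = key (Or (mix (mj j) ω ω'')) j := by
    refine key_congr (Or_dep _ ?_)
    intro c hc
    by_cases h4 : c.1 < mj j
    · rw [mix_lt h4, mix_lt h4]
    · rw [mix_ge (not_lt.1 h4), mix_ge (not_lt.1 h4)]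
      exact h c hc
  rw [Set.mem_ofPred_eq, Set.mem_ofPred_eq, h3]

/-! ### The ideal oracles -/

/-- The ideal oracle: the hidden part is only present for the first `m` strings. -/
def Id (m : ℕ) (ω : Om) : Set (List Bool) :=
  {z | z ∈ Or ω ∧ ∀ x y, kind z = .hid x y → idx x < m}

theorem Rb_ag {m : ℕ} {ω ω' : Om} (h : Ag m ω ω') {x : List Bool} (hx : idx x < m) :
    Rb ω x = Rb ω' x := h _ hx

theorem wit_ag {m : ℕ} {ω ω' : Om} (h : Ag m ω ω') {x : List Bool} (hx : idx x < m) :
    wit ω x = wit ω' x :=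
  List.map_congr_left fun _ _ => h _ hx

theorem MM_ag {l m : ℕ} (hm : ∀ j, 2 ^ ar j ≤ l → mj j ≤ m) {ω ω' : Om} (h : Ag m ω ω')
    {w : List Bool} (hw : w.length ≤ l) : MM Or ω w = MM Or ω' w := by
  rw [MM, MM]
  congr 1
  refine Finset.sum_congr rfl fun t _ => ?_
  by_cases ht : w.length < 2 ^ ar t
  · rw [aa_short Or ω ht, aa_short Or ω' ht]
  · rw [aa, aa, pr_ag (h.mono (hm t (by omega)))]

theorem Id_ag {l m : ℕ} (hm : ∀ j, 2 ^ ar j ≤ l → mj j ≤ m) {ω ω' : Om} (h : Ag m ω ω')
    {z : List Bool} (hz : z.length ≤ l) : z ∈ Id m ω ↔ z ∈ Id m ω' := by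
  simp only [Id, Set.mem_ofPred_eq]
  refine and_congr_left fun h1 => ?_
  rw [mem_Or, mem_Or]
  cases hk : kind z with
  | tab r w j =>
    have h1 := length_lt_of_tab hk
    rw [mem_FF_tab hk, mem_FF_tab hk, out, out, MM_ag hm h (by omega)]
  | clk x y => rw [mem_FF_clk hk, mem_FF_clk hk]
  | hid x y =>
    have h2 := h1 x y hk
    rw [mem_FF_hid hk, mem_FF_hid hk, Hid, Hid, Rb_ag h h2, wit_ag h h2]
  | other => exact iff_of_false (mem_FF_other hk) (mem_FF_other hk)

/-- If the ideal oracle is wrong then a witness was found. -/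
theorem Id_ne {m : ℕ} {ω : Om} {z : List Bool} (h : ¬ (z ∈ Id m ω ↔ z ∈ Or ω)) :
    ∃ x y, z = encH x y true ∧ m ≤ idx x ∧ y = wit ω x := by
  by_contra hc
  push Not at hc
  apply h
  simp only [Id, Set.mem_ofPred_eq]
  refine ⟨fun h1 => h1.1, fun h1 => ⟨h1, fun x y hk => ?_⟩⟩
  by_contra h2
  refine hc x y (of_kind_hid hk) (not_lt.1 h2) ?_
  rw [mem_Or, mem_FF_hid hk] at h1
  exact h1.2

end Pool.Agent.Helper37PR
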